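import Mathlib
import Pool.Agent.H99.NC.Russo
import Pool.Agent.H75.TwoArm.Decay

set_option autoImplicit false
open Finset

/-!
# Many disjoint arms through an annulus

`Arms E n A ω` : the event `A` occurs `n` times disjointly in `ω`. From the BK inequality:
`Pr (Arms n A) ≤ (Pr A)^n`, and with `open_arm_decay` the probability of `n` disjoint open crossings
of the annulus `A(x; ρ, 4^k ρ)` is at most `(1-δ)^(k n)`, in every domain.
-/

namespace Pool.Agent.H49.Perc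

open Pool.Agent.H75.Perc Pool.Agent.H99.NC Pool.Agent.H75.TwoArm

variable {α : Type*} [DecidableEq α]

/-- the property `A` occurs `n` times disjointly -/
def Arms (n : ℕ) (A : Finset α → Prop) (ω : Finset α) : Prop :=
  ∃ S : Fin n → Finset α, (∀ i, S i ⊆ ω) ∧ (∀ i j, i ≠ j → Disjoint (S i) (S j)) ∧ ∀ i, A (S i)

omit [DecidableEq α] in
lemma Arms_inc (n : ℕ) (A : Finset α → Prop) : Inc (Arms n A) := by
  rintro ω ω' h ⟨S, h1, h2, h3⟩
  exact ⟨S, fun i => (h1 i).trans h, h2, h3⟩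

lemma Arms_succ {n : ℕ} {A : Finset α → Prop} {ω : Finset α} (h : Arms (n + 1) A ω) :
    ∃ S T, S ⊆ ω ∧ T ⊆ ω ∧ Disjoint S T ∧ Arms n A S ∧ A T := by
  obtain ⟨S, h1, h2, h3⟩ := h
  refine ⟨univ.biUnion (fun i : Fin n => S i.castSucc), S (Fin.last n), ?_, h1 _, ?_, ?_, h3 _⟩
  · exact biUnion_subset.2 fun i _ => h1 _
  · rw [disjoint_biUnion_left]
    intro i _
    exact h2 _ _ (Fin.castSucc_lt_last i).ne
  · refine ⟨fun i => S i.castSucc, fun i => subset_biUnion_of_mem (fun i : Fin n => S i.castSucc)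
      (mem_univ i), fun i j hij => h2 _ _ fun h => hij (Fin.castSucc_injective n h), fun i => h3 _⟩

/-- BK for many occurrences, all densities -/
theorem PrP_Arms_le {q : α → ℝ} (hq : Pb q) (E : Finset α) {A : Finset α → Prop} (hA : Inc A)
    (n : ℕ) : PrP q E (Arms n A) ≤ PrP q E A ^ n := by
  induction n with
  | zero => simpa using PrP_le_one hq E (Arms 0 A)
  | succ n ih =>
    rw [pow_succ]
    refine (PrP_mono hq fun ω _ h => Arms_succ h).trans ?_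
    refine (bk hq E (Arms_inc n A) hA).trans ?_
    exact mul_le_mul_of_nonneg_right ih (PrP_nonneg hq E A)

/-- two different increasing events, `m` and `n` times -/
theorem PrP_Arms2_le {q : α → ℝ} (hq : Pb q) (E : Finset α) {A B : Finset α → Prop} (hA : Inc A)
    (hB : Inc B) (m n : ℕ) :
    PrP q E (fun ω => ∃ S T, S ⊆ ω ∧ T ⊆ ω ∧ Disjoint S T ∧ Arms m A S ∧ Arms n B T) ≤
      PrP q E A ^ m * PrP q E B ^ n := by
  refine (bk hq E (Arms_inc m A) (Arms_inc n B)).trans ?_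
  exact mul_le_mul (PrP_Arms_le hq E hA m) (PrP_Arms_le hq E hB n) (PrP_nonneg hq _ _)
    (pow_nonneg (PrP_nonneg hq _ _) _)

theorem Pr_Arms_le (E : Finset α) {A : Finset α → Prop} (hA : Inc A) (n : ℕ) :
    Pr E (Arms n A) ≤ Pr E A ^ n := by
  have h := PrP_Arms_le (q := fun _ : α => (1 : ℝ) / 2) (fun _ => by norm_num) E hA n
  rwa [PrP_half, PrP_half] at h

/-- an open crossing of the annulus around `x` between the radii `ρ` and `M` -/
def Arm1 (x : ℤ × ℤ) (ρ M : ℤ) (ω : Finset (ℤ × ℤ)) : Prop :=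
  ∃ u v : ℤ × ℤ, |u.1 - x.1| ≤ ρ ∧ |u.2 - x.2| ≤ ρ ∧ (M ≤ |v.1 - x.1| ∨ M ≤ |v.2 - x.2|) ∧ Co ω u v

lemma Arm1_inc (x : ℤ × ℤ) (ρ M : ℤ) : Inc (Arm1 x ρ M) := by
  rintro ω ω' h ⟨u, v, h1, h2, h3, h4⟩
  exact ⟨u, v, h1, h2, h3, h4.mono h⟩

/-- `n` disjoint open arms in an arbitrary domain `E` -/
theorem k_arms : ∃ δ : ℝ, 0 < δ ∧ δ < 1 ∧ ∀ (E : Finset (ℤ × ℤ)),
    (∀ e ∈ E, (e.1 + e.2) % 2 = 1) → ∀ (x : ℤ × ℤ) (ρ : ℤ), 1 ≤ ρ → ∀ k n : ℕ,
    Pr E (Arms n (Arm1 x ρ (4 ^ k * ρ))) ≤ (1 - δ) ^ (k * n) := by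
  obtain ⟨δ, h0, h1, h⟩ := open_arm_decay
  refine ⟨δ, h0, h1, fun E hE x ρ hρ k n => ?_⟩
  rw [pow_mul]
  refine (Pr_Arms_le E (Arm1_inc x ρ _) n).trans ?_
  exact pow_le_pow_left₀ (Pr_nonneg _ _) (h E hE x ρ hρ k) n

end Pool.Agent.H49.Perc
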